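import Mathlib

open scoped NNReal Topology
open Filter Set Metric

namespace Q203.LF

universe u

/-- The space `Lip₀(M)` of complex-valued Lipschitz functions on the pointed metric space
`(M, o)` which vanish at the base point `o`, as a space of functions. -/
def lipSub (M : Type u) [MetricSpace M] (o : M) : Submodule ℂ (M → ℂ) where
  carrier := {g | g o = 0 ∧ ∃ K : ℝ, ∀ x y, ‖g x - g y‖ ≤ K * dist x y}
  zero_mem' := ⟨rfl, 0, fun x y => by simp⟩
  add_mem' := by
    rintro g h ⟨hg, K, hK⟩ ⟨hh, L, hL⟩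
    refine ⟨by simp [hg, hh], K + L, fun x y => ?_⟩
    calc ‖(g + h) x - (g + h) y‖ = ‖(g x - g y) + (h x - h y)‖ := by
          simp only [Pi.add_apply]; congr 1; ring
      _ ≤ ‖g x - g y‖ + ‖h x - h y‖ := norm_add_le _ _
      _ ≤ K * dist x y + L * dist x y := add_le_add (hK x y) (hL x y)
      _ = (K + L) * dist x y := by ring
  smul_mem' := by
    rintro c g ⟨hg, K, hK⟩
    refine ⟨by simp [hg], ‖c‖ * K, fun x y => ?_⟩
    calc ‖(c • g) x - (c • g) y‖ = ‖c‖ * ‖g x - g y‖ := by
          simp only [Pi.smul_apply, smul_eq_mul]; rw [← mul_sub, norm_mul]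
      _ ≤ ‖c‖ * (K * dist x y) := by gcongr; exact hK x y
      _ = ‖c‖ * K * dist x y := by ring

/-- `Lip₀(M)`, normed by the best Lipschitz constant. -/
def Lip0 (M : Type u) [MetricSpace M] (o : M) : Type u := lipSub M o

variable (M : Type u) [MetricSpace M] (o : M)

section Aux

/-- auxiliary: the additive group structure (pointwise operations). -/
@[reducible] def Lip0.acg : AddCommGroup (Lip0 M o) := Submodule.addCommGroup (lipSub M o)

attribute [local instance] Lip0.acg

/-- auxiliary: the module structure (pointwise operations). -/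
@[reducible] def Lip0.mod : Module ℂ (Lip0 M o) := Submodule.module (lipSub M o)

attribute [local instance] Lip0.mod

variable {M o}

/-- The value of `g` at `x`. -/
def Lip0.val (g : Lip0 M o) (x : M) : ℂ := (show lipSub M o from g).1 x

lemma Lip0.ext' {g h : Lip0 M o} (H : ∀ x, g.val x = h.val x) : g = h :=
  Subtype.ext (funext H)

lemma Lip0.val_add (g h : Lip0 M o) (x : M) : (g + h).val x = g.val x + h.val x := rfl
lemma Lip0.val_smul (c : ℂ) (g : Lip0 M o) (x : M) : (c • g).val x = c * g.val x := rfl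
lemma Lip0.val_zero (x : M) : (0 : Lip0 M o).val x = 0 := rfl
lemma Lip0.val_base (g : Lip0 M o) : g.val o = 0 := (show lipSub M o from g).2.1
lemma Lip0.exists_bound (g : Lip0 M o) : ∃ K : ℝ, ∀ x y, ‖g.val x - g.val y‖ ≤ K * dist x y :=
  (show lipSub M o from g).2.2

/-- The set of (nonnegative) Lipschitz constants of `g`. -/
def Lip0.consts (g : Lip0 M o) : Set ℝ :=
  {K : ℝ | 0 ≤ K ∧ ∀ x y, ‖g.val x - g.val y‖ ≤ K * dist x y}

/-- The norm of `Lip₀(M)`: the best Lipschitz constant. -/
noncomputable instance : Norm (Lip0 M o) := ⟨fun g => sInf g.consts⟩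

lemma Lip0.norm_def (g : Lip0 M o) : ‖g‖ = sInf g.consts := rfl

lemma Lip0.consts_nonempty (g : Lip0 M o) : g.consts.Nonempty := by
  obtain ⟨K, hK⟩ := g.exists_bound
  refine ⟨max K 0, le_max_right _ _, fun x y => (hK x y).trans ?_⟩
  gcongr
  exact le_max_left _ _

lemma Lip0.consts_bddBelow (g : Lip0 M o) : BddBelow g.consts := ⟨0, fun _ h => h.1⟩

lemma Lip0.norm_nonneg' (g : Lip0 M o) : 0 ≤ ‖g‖ :=
  le_csInf g.consts_nonempty (fun _ h => h.1)

lemma Lip0.norm_le_of {g : Lip0 M o} {K : ℝ} (hK : 0 ≤ K)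
    (h : ∀ x y, ‖g.val x - g.val y‖ ≤ K * dist x y) : ‖g‖ ≤ K :=
  csInf_le g.consts_bddBelow ⟨hK, h⟩

lemma Lip0.le_norm (g : Lip0 M o) (x y : M) : ‖g.val x - g.val y‖ ≤ ‖g‖ * dist x y := by
  rcases eq_or_ne x y with rfl | hxy
  · simp
  have hd : 0 < dist x y := dist_pos.2 hxy
  rw [← div_le_iff₀ hd]
  apply le_csInf g.consts_nonempty
  rintro K ⟨_, hK⟩
  rw [div_le_iff₀ hd]
  exact hK x y

lemma Lip0.core : NormedSpace.Core ℂ (Lip0 M o) where
  norm_nonneg g := g.norm_nonneg'
  norm_smul c g := by
    have h1 : ∀ (c : ℂ) (g : Lip0 M o), ‖c • g‖ ≤ ‖c‖ * ‖g‖ := by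
      intro c g
      refine Lip0.norm_le_of (mul_nonneg (norm_nonneg _) g.norm_nonneg') fun x y => ?_
      rw [Lip0.val_smul, Lip0.val_smul, ← mul_sub, norm_mul, mul_assoc]
      gcongr
      exact g.le_norm x y
    refine le_antisymm (h1 c g) ?_
    rcases eq_or_ne c 0 with rfl | hc
    · simpa using (Lip0.norm_nonneg' ((0 : ℂ) • g))
    have h2 := h1 c⁻¹ (c • g)
    rw [smul_smul, inv_mul_cancel₀ hc, one_smul, norm_inv] at h2
    have hc' : 0 < ‖c‖ := norm_pos_iff.2 hc
    calc ‖c‖ * ‖g‖ ≤ ‖c‖ * (‖c‖⁻¹ * ‖c • g‖) := by gcongr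
      _ = ‖c • g‖ := by field_simp
  norm_triangle g h := by
    refine Lip0.norm_le_of (add_nonneg g.norm_nonneg' h.norm_nonneg') fun x y => ?_
    rw [Lip0.val_add, Lip0.val_add]
    calc ‖g.val x + h.val x - (g.val y + h.val y)‖
        = ‖(g.val x - g.val y) + (h.val x - h.val y)‖ := by congr 1; ring
      _ ≤ ‖g.val x - g.val y‖ + ‖h.val x - h.val y‖ := norm_add_le _ _
      _ ≤ ‖g‖ * dist x y + ‖h‖ * dist x y := add_le_add (g.le_norm x y) (h.le_norm x y)
      _ = (‖g‖ + ‖h‖) * dist x y := by ring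
  norm_eq_zero_iff g := by
    constructor
    · intro h
      apply Lip0.ext'
      intro x
      have := g.le_norm x o
      rw [h, zero_mul, g.val_base, sub_zero] at this
      rw [Lip0.val_zero]
      exact norm_le_zero_iff.1 this
    · rintro rfl
      refine le_antisymm (Lip0.norm_le_of le_rfl fun x y => ?_) (Lip0.norm_nonneg' _)
      simp [Lip0.val_zero]

noncomputable instance Lip0.instNormedAddCommGroup : NormedAddCommGroup (Lip0 M o) :=
  NormedAddCommGroup.ofCore Lip0.core

noncomputable instance Lip0.instNormedSpace : NormedSpace ℂ (Lip0 M o) :=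
  NormedSpace.ofCore Lip0.core

end Aux

/-- The dual space `Lip₀(M)*` (bounded linear functionals, operator norm). -/
def LipDual : Type u := Lip0 M o →L[ℂ] ℂ

noncomputable instance LipDual.instNormedAddCommGroup : NormedAddCommGroup (LipDual M o) :=
  (ContinuousLinearMap.toNormedAddCommGroup : NormedAddCommGroup (Lip0 M o →L[ℂ] ℂ))

noncomputable instance LipDual.instNormedSpace : NormedSpace ℂ (LipDual M o) :=
  (ContinuousLinearMap.toNormedSpace : NormedSpace ℂ (Lip0 M o →L[ℂ] ℂ))

/-- The evaluation functional at `x` on `Lip₀(M)`. -/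
noncomputable def evC (x : M) : Lip0 M o →L[ℂ] ℂ :=
  LinearMap.mkContinuous
    { toFun := fun g => g.val x
      map_add' := fun _ _ => rfl
      map_smul' := fun _ _ => rfl } (dist x o) (fun g => by
        have := g.le_norm x o
        rw [g.val_base, sub_zero] at this
        rw [mul_comm]; exact this)

/-- The evaluation functional at `x` on `Lip₀(M)`, as an element of the dual space. -/
noncomputable def ev (x : M) : LipDual M o := evC M o x

/-- The Lipschitz-free space `F(M)`: the closed linear span of the evaluations in the dual of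
`Lip₀(M)`. -/
noncomputable def freeSub : Submodule ℂ (LipDual M o) :=
  (Submodule.span ℂ (Set.range (ev M o))).topologicalClosure

/-- The Lipschitz-free space `F(M)` as a Banach space (norm of the dual of `Lip₀(M)`). -/
def Free : Type u := freeSub M o

noncomputable instance Free.instNormedAddCommGroup : NormedAddCommGroup (Free M o) :=
  (freeSub M o).normedAddCommGroup

noncomputable instance Free.instNormedSpace : NormedSpace ℂ (Free M o) :=
  (freeSub M o).normedSpace

lemma ev_mem (x : M) : ev M o x ∈ freeSub M o :=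
  Submodule.le_topologicalClosure _ (Submodule.subset_span ⟨x, rfl⟩)

/-- `δ(x)` as an element of `F(M)`. -/
noncomputable def delta (x : M) : Free M o := ⟨ev M o x, ev_mem M o x⟩

/-- The identity from the dual space to the space of functionals. -/
noncomputable def toC : LipDual M o →ₗᵢ[ℂ] (Lip0 M o →L[ℂ] ℂ) where
  toFun := fun Φ => Φ
  map_add' := fun _ _ => rfl
  map_smul' := fun _ _ => rfl
  norm_map' := fun _ => rfl

/-- The isometric inclusion of `F(M)` into the dual of `Lip₀(M)`. -/
noncomputable def inclD : Free M o →ₗᵢ[ℂ] LipDual M o :=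
  (freeSub M o).subtypeₗᵢ

/-- The isometric inclusion of `F(M)` into the dual of `Lip₀(M)`. -/
noncomputable def incl : Free M o →ₗᵢ[ℂ] (Lip0 M o →L[ℂ] ℂ) :=
  (toC M o).comp (inclD M o)

instance Free.instCompleteSpace : CompleteSpace (Free M o) :=
  haveI : CompleteSpace (LipDual M o) :=
    (inferInstance : CompleteSpace (Lip0 M o →L[ℂ] ℂ))
  (Submodule.isClosed_topologicalClosure
    (Submodule.span ℂ (Set.range (ev M o)))).completeSpace_coe

variable {M o}

lemma ev_apply (x : M) (g : Lip0 M o) : evC M o x g = g.val x := rfl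

lemma incl_delta (x : M) : incl M o (delta M o x) = evC M o x := rfl

lemma inclD_delta (x : M) : inclD M o (delta M o x) = ev M o x := rfl

lemma delta_base : delta M o o = 0 := by
  apply (incl M o).injective
  rw [incl_delta, map_zero]
  ext g
  exact g.val_base

/-- make an element of `Lip₀(M)` out of a real-valued 1-Lipschitz function. -/
noncomputable def mkReal (h : M → ℝ) (hL : ∀ x y, |h x - h y| ≤ dist x y) : Lip0 M o :=
  (⟨fun x => ((h x - h o : ℝ) : ℂ), by simp, 1, fun x y => by
    rw [← Complex.ofReal_sub, Complex.norm_real, Real.norm_eq_abs, one_mul]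
    have := hL x y
    rwa [sub_sub_sub_cancel_right]⟩ : lipSub M o)

lemma mkReal_val (h : M → ℝ) (hL : ∀ x y, |h x - h y| ≤ dist x y) (x : M) :
    (mkReal h hL : Lip0 M o).val x = ((h x - h o : ℝ) : ℂ) := rfl

lemma mkReal_norm (h : M → ℝ) (hL : ∀ x y, |h x - h y| ≤ dist x y) :
    ‖(mkReal h hL : Lip0 M o)‖ ≤ 1 := by
  refine Lip0.norm_le_of zero_le_one fun x y => ?_
  rw [mkReal_val, mkReal_val, ← Complex.ofReal_sub, Complex.norm_real, Real.norm_eq_abs, one_mul]
  have := hL x y
  rwa [sub_sub_sub_cancel_right]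

/-- testing against a real 1-Lipschitz function. -/
lemma test_le (v : Free M o) (h : M → ℝ) (hL : ∀ x y, |h x - h y| ≤ dist x y) :
    ‖incl M o v (mkReal h hL)‖ ≤ ‖v‖ := by
  calc ‖incl M o v (mkReal h hL)‖ ≤ ‖incl M o v‖ * ‖(mkReal h hL : Lip0 M o)‖ :=
        (incl M o v).le_opNorm _
    _ ≤ ‖incl M o v‖ * 1 := by gcongr; exact mkReal_norm h hL
    _ = ‖v‖ := by rw [mul_one, (incl M o).norm_map]

lemma dist_delta (x y : M) : ‖delta M o x - delta M o y‖ = dist x y := by
  apply le_antisymm
  · rw [← (incl M o).norm_map, map_sub, incl_delta, incl_delta]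
    refine ContinuousLinearMap.opNorm_le_bound _ dist_nonneg fun g => ?_
    rw [sub_apply, ev_apply, ev_apply, mul_comm]
    exact g.le_norm x y
  · have h := test_le (delta M o x - delta M o y) (fun z => dist z y)
      (fun a b => abs_dist_sub_le a b y)
    rw [map_sub, incl_delta, incl_delta, sub_apply, ev_apply, ev_apply,
      mkReal_val, mkReal_val, ← Complex.ofReal_sub, Complex.norm_real, dist_self] at h
    simpa using h

lemma norm_delta (x : M) : ‖delta M o x‖ = dist x o := by
  have := dist_delta (M := M) (o := o) x o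
  rw [delta_base] at this
  simpa using this

lemma dense_span : Dense ((Submodule.span ℂ (Set.range (delta M o)) : Submodule ℂ (Free M o)) :
    Set (Free M o)) := by
  intro v
  rw [Metric.mem_closure_iff]
  intro ε hε
  have h1 : (Submodule.span ℂ (Set.range (delta M o))).map (inclD M o).toLinearMap =
      Submodule.span ℂ (Set.range (ev M o)) := by
    rw [Submodule.map_span, ← Set.range_comp]; rfl
  have h2 : inclD M o v ∈ closure ((Submodule.span ℂ (Set.range (ev M o)) :
      Submodule ℂ (LipDual M o)) : Set (LipDual M o)) :=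
    (show freeSub M o from v).2
  rw [Metric.mem_closure_iff] at h2
  obtain ⟨w, hw, hd⟩ := h2 ε hε
  rw [← h1] at hw
  obtain ⟨s, hs, rfl⟩ := hw
  refine ⟨s, hs, ?_⟩
  rw [← (inclD M o).dist_map]
  exact hd

lemma functional_ext (φ : Free M o →L[ℂ] ℂ) (h : ∀ x, φ (delta M o x) = 0) : φ = 0 := by
  refine ContinuousLinearMap.ext_on (dense_span (M := M) (o := o)) ?_
  rintro _ ⟨x, rfl⟩
  simpa using h x

lemma functional_lip (φ : Free M o →L[ℂ] ℂ) (x y : M) :
    ‖φ (delta M o x) - φ (delta M o y)‖ ≤ ‖φ‖ * dist x y := by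
  rw [← map_sub, ← dist_delta (o := o)]
  exact φ.le_opNorm _

end Q203.LF
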