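import Mathlib

open scoped NNReal Topology
open Filter Set Metric

namespace Q203.LF

universe u

variable {M : Type u} [MetricSpace M] {o : M}

/-- The set `A(f)` of orders of the periodic points of `f` other than the base point `o`. -/
def perOrders (o : M) (f : M → M) : Set ℕ :=
  {n | 1 ≤ n ∧ ∃ x, x ≠ o ∧ f^[n] x = x ∧ ∀ k, 1 ≤ k → k < n → f^[k] x ≠ x}

lemma mem_perOrders {f : M → M} {z : M} (hz : z ≠ o) {p : ℕ} (hp : 0 < p) (h : f^[p] z = z) :
    Function.minimalPeriod f z ∈ perOrders o f := by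
  have hper : Function.IsPeriodicPt f p z := h
  refine ⟨hper.minimalPeriod_pos hp, z, hz, Function.isPeriodicPt_minimalPeriod f z, ?_⟩
  intro k hk hk'
  exact Function.not_isPeriodicPt_of_pos_of_lt_minimalPeriod (by omega) hk'

/-- eigenfunctions of the composition operator -/
lemma eigen_periodic [CompleteSpace M] (f : M → M) (B : Set M) (hB : ∀ x ∈ B, f x ∈ B)
    (hcont : Continuous f)
    (hBc : ∀ x : ℕ → M, (∀ n, x n ∈ B) → ∃ ψ : ℕ → ℕ, StrictMono ψ ∧
      CauchySeq (fun n => f (x (ψ n))))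
    (hflat : ∀ ε > 0, ∃ δ > 0, ∀ x ∈ B, ∀ y ∈ B, dist x y ≤ δ →
      dist (f x) (f y) ≤ ε * dist x y)
    (g : M → ℂ) (K : ℝ) (hg : ∀ x y, ‖g x - g y‖ ≤ K * dist x y) (hgo : g o = 0)
    (μ : ℂ) (hμ : μ ≠ 0) (hgf : ∀ x, g (f x) = μ * g x) (x : M) (hxB : x ∈ B) (hx : g x ≠ 0) :
    ∃ n ∈ perOrders o f, μ ^ n = 1 := by
  have hμ' : 0 < ‖μ‖ := norm_pos_iff.2 hμ
  set η := min (1 / 2) (‖μ‖ / 2) with hη
  have hηpos : 0 < η := by positivity
  have hη1 : η ≤ 1 / 2 := min_le_left _ _
  have hη2 : η ≤ ‖μ‖ / 2 := min_le_right _ _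
  obtain ⟨δ, hδ, hfl⟩ := hflat η hηpos
  let a : ℕ → M := fun k => f^[k] x
  have ha0 : ∀ k, a (k + 1) = f (a k) := fun k => Function.iterate_succ_apply' f k x
  have haB : ∀ k, a k ∈ B := by
    intro k
    induction k with
    | zero => exact hxB
    | succ k ih => rw [ha0]; exact hB _ ih
  have hga : ∀ k, g (a k) = μ ^ k * g x := by
    intro k
    induction k with
    | zero => simp [a]
    | succ k ih => rw [ha0, hgf, ih, pow_succ]; ring
  obtain ⟨ψ, hψ, hC⟩ := hBc a haB
  obtain ⟨N, hN⟩ := Metric.cauchySeq_iff.1 hC δ hδ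
  set m := ψ N + 1 with hm
  set p := ψ (N + 1) - ψ N with hp
  have hp1 : ψ N < ψ (N + 1) := hψ (Nat.lt_succ_self N)
  have hppos : 0 < p := by omega
  have hmp : m + p = ψ (N + 1) + 1 := by omega
  have he0 : dist (a m) (a (m + p)) ≤ δ := by
    rw [hmp, hm, ha0, ha0]
    exact (hN N le_rfl (N + 1) (by omega)).le
  have he : ∀ k, dist (a (m + k)) (a (m + k + p)) ≤ δ * η ^ k := by
    intro k
    induction k with
    | zero => simpa using he0
    | succ k ih =>
      have h1 : dist (a (m + k)) (a (m + k + p)) ≤ δ := by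
        refine ih.trans ?_
        calc δ * η ^ k ≤ δ * 1 := by
              gcongr
              exact pow_le_one₀ hηpos.le (by linarith)
          _ = δ := mul_one δ
      have h2 := hfl _ (haB (m + k)) _ (haB (m + k + p)) h1
      have e1 : a (m + (k + 1)) = f (a (m + k)) := by rw [← ha0]; rfl
      have e2 : a (m + (k + 1) + p) = f (a (m + k + p)) := by
        rw [← ha0]; congr 1; omega
      rw [e1, e2]
      calc dist (f (a (m + k))) (f (a (m + k + p))) ≤ η * dist (a (m + k)) (a (m + k + p)) := h2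
        _ ≤ η * (δ * η ^ k) := by gcongr
        _ = δ * η ^ (k + 1) := by rw [pow_succ]; ring
  have hK : 0 ≤ K := by
    by_contra hneg
    push Not at hneg
    have h1 := hg x o
    rw [hgo, sub_zero] at h1
    have h2 : 0 < ‖g x‖ := norm_pos_iff.2 hx
    nlinarith [dist_nonneg (x := x) (y := o)]
  -- `μ ^ p = 1`
  have hμp : μ ^ p = 1 := by
    by_contra hne
    have hne' : 0 < ‖1 - μ ^ p‖ := norm_pos_iff.2 (sub_ne_zero.2 (Ne.symm hne))
    have hbound : ∀ k : ℕ, ‖μ‖ ^ m * ‖g x‖ * ‖1 - μ ^ p‖ ≤ K * δ * (η / ‖μ‖) ^ k := by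
      intro k
      have h1 := hg (a (m + k)) (a (m + k + p))
      rw [hga, hga] at h1
      have e : μ ^ (m + k) * g x - μ ^ (m + k + p) * g x = μ ^ (m + k) * g x * (1 - μ ^ p) := by
        rw [pow_add μ (m + k) p]; ring
      rw [e, norm_mul, norm_mul, norm_pow] at h1
      have h2 : ‖μ‖ ^ (m + k) * ‖g x‖ * ‖1 - μ ^ p‖ ≤ K * (δ * η ^ k) :=
        h1.trans (by gcongr; exact he k)
      rw [div_pow, ← mul_div_assoc, le_div_iff₀ (pow_pos hμ' k)]
      calc ‖μ‖ ^ m * ‖g x‖ * ‖1 - μ ^ p‖ * ‖μ‖ ^ k = ‖μ‖ ^ (m + k) * ‖g x‖ * ‖1 - μ ^ p‖ := by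
            rw [pow_add]; ring
        _ ≤ K * (δ * η ^ k) := h2
        _ = K * δ * η ^ k := by ring
    have hlim : Tendsto (fun k : ℕ => K * δ * (η / ‖μ‖) ^ k) atTop (𝓝 (K * δ * 0)) := by
      apply Tendsto.const_mul
      apply tendsto_pow_atTop_nhds_zero_of_lt_one (by positivity)
      rw [div_lt_one hμ']
      linarith
    rw [mul_zero] at hlim
    have := ge_of_tendsto' hlim hbound
    have h3 : 0 < ‖μ‖ ^ m * ‖g x‖ * ‖1 - μ ^ p‖ := by
      have : 0 < ‖g x‖ := norm_pos_iff.2 hx
      positivity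
    linarith
  -- the limit point
  let b : ℕ → M := fun j => a (m + p * j)
  have hb : ∀ j, dist (b j) (b (j + 1)) ≤ δ * (1 / 2) ^ j := by
    intro j
    have h1 := he (p * j)
    have e : b (j + 1) = a (m + p * j + p) := by
      simp only [b]; congr 1; ring
    rw [e]
    refine h1.trans ?_
    gcongr
    calc η ^ (p * j) ≤ (1 / 2) ^ (p * j) := by gcongr
      _ ≤ (1 / 2) ^ j := by
          apply pow_le_pow_of_le_one (by norm_num) (by norm_num)
          exact Nat.le_mul_of_pos_left j hppos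
  have hbC : CauchySeq b := cauchySeq_of_le_geometric (1 / 2) δ (by norm_num) hb
  obtain ⟨z, hz⟩ := cauchySeq_tendsto_of_complete hbC
  have hfpz : f^[p] z = z := by
    have h1 : Tendsto (fun j => f^[p] (b j)) atTop (𝓝 (f^[p] z)) :=
      ((hcont.iterate p).tendsto z).comp hz
    have h2 : Tendsto (fun j => b (j + 1)) atTop (𝓝 z) := hz.comp (tendsto_add_atTop_nat 1)
    have h3 : ∀ j, f^[p] (b j) = b (j + 1) := by
      intro j
      simp only [b, a]
      rw [← Function.iterate_add_apply]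
      congr 1
      ring
    exact tendsto_nhds_unique (h1.congr h3) h2
  have hgz : g z = μ ^ m * g x := by
    have hgc : Tendsto (fun j => g (b j)) atTop (𝓝 (g z)) := by
      rw [tendsto_iff_dist_tendsto_zero] at hz ⊢
      have h1 : Tendsto (fun j => K * dist (b j) z) atTop (𝓝 (K * 0)) := hz.const_mul K
      rw [mul_zero] at h1
      refine squeeze_zero (fun _ => dist_nonneg) (fun j => ?_) h1
      rw [dist_eq_norm]
      exact hg _ _
    have h2 : ∀ j, g (b j) = μ ^ m * g x := by
      intro j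
      simp only [b]
      rw [hga, pow_add, pow_mul, hμp, one_pow, mul_one]
    have h3 : Tendsto (fun _ : ℕ => μ ^ m * g x) atTop (𝓝 (g z)) := hgc.congr h2
    exact (tendsto_nhds_unique h3 tendsto_const_nhds)
  have hgz0 : g z ≠ 0 := by
    rw [hgz]
    exact mul_ne_zero (pow_ne_zero _ hμ) hx
  have hzo : z ≠ o := by
    rintro rfl
    exact hgz0 hgo
  refine ⟨Function.minimalPeriod f z, mem_perOrders hzo hppos hfpz, ?_⟩
  have hit : ∀ k, g (f^[k] z) = μ ^ k * g z := by
    intro k
    induction k with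
    | zero => simp
    | succ k ih => rw [Function.iterate_succ_apply', hgf, ih, pow_succ]; ring
  have h4 := hit (Function.minimalPeriod f z)
  have h5 : f^[Function.minimalPeriod f z] z = z := Function.isPeriodicPt_minimalPeriod f z
  rw [h5] at h4
  have h6 : (1 - μ ^ Function.minimalPeriod f z) * g z = 0 := by
    rw [sub_mul, one_mul, ← h4, sub_self]
  rcases mul_eq_zero.1 h6 with h | h
  · exact (sub_eq_zero.1 h).symm
  · exact absurd h hgz0

/-- finiteness of the set of periodic points -/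
lemma finite_orders (f : M → M) (B : Set M) (hB : ∀ x ∈ B, f x ∈ B)
    (hBc : ∀ x : ℕ → M, (∀ n, x n ∈ B) → ∃ ψ : ℕ → ℕ, StrictMono ψ ∧
      CauchySeq (fun n => f (x (ψ n))))
    (hflat : ∀ ε > 0, ∃ δ > 0, ∀ x ∈ B, ∀ y ∈ B, dist x y ≤ δ →
      dist (f x) (f y) ≤ ε * dist x y)
    (hper : ∀ z n, 0 < n → f^[n] z = z → z ∈ B) :
    (perOrders o f).Finite := by
  set P : Set M := {z | ∃ n, 0 < n ∧ f^[n] z = z} with hP
  have hPfin : P.Finite := by
    by_contra hinf
    have hinf' : P.Infinite := hinf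
    obtain ⟨δ, hδ, hfl⟩ := hflat (1 / 2) (by norm_num)
    let e := hinf'.natEmbedding P
    let z : ℕ → M := fun n => (e n : M)
    have hzinj : Function.Injective z := fun i j h => e.injective (Subtype.ext h)
    choose q hq0 hq using fun n => (e n).2
    have hqz : ∀ n, f^[q n] (z n) = z n := hq
    let w : ℕ → M := fun n => f^[q n - 1] (z n)
    have hitB : ∀ y ∈ B, ∀ k, f^[k] y ∈ B := by
      intro y hy k
      induction k with
      | zero => exact hy
      | succ k ih => rw [Function.iterate_succ_apply']; exact hB _ ih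
    have hzB : ∀ n, z n ∈ B := fun n => hper _ (q n) (hq0 n) (hqz n)
    have hwB : ∀ n, w n ∈ B := fun n => hitB _ (hzB n) _
    have hfw : ∀ n, f (w n) = z n := by
      intro n
      have h1 : f (f^[q n - 1] (z n)) = f^[(q n - 1).succ] (z n) :=
        (Function.iterate_succ_apply' f (q n - 1) (z n)).symm
      have h2 : (q n - 1).succ = q n := by have := hq0 n; omega
      rw [h2, hqz n] at h1
      exact h1
    obtain ⟨ψ, hψ, hC⟩ := hBc w hwB
    obtain ⟨N, hN⟩ := Metric.cauchySeq_iff.1 hC δ hδ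
    have hd : dist (z (ψ N)) (z (ψ (N + 1))) ≤ δ := by
      have := (hN N le_rfl (N + 1) (by omega)).le
      rwa [hfw, hfw] at this
    set y := z (ψ N) with hy
    set y' := z (ψ (N + 1)) with hy'
    have hne : y ≠ y' := by
      intro h
      have := hzinj h
      have h2 := hψ (Nat.lt_succ_self N)
      simp only [Nat.succ_eq_add_one] at h2
      omega
    have hyB : y ∈ B := hzB _
    have hyB' : y' ∈ B := hzB _
    have hcontr : ∀ k, dist (f^[k] y) (f^[k] y') ≤ (1 / 2) ^ k * dist y y' := by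
      intro k
      induction k with
      | zero => simp
      | succ k ih =>
        have h1 : dist (f^[k] y) (f^[k] y') ≤ δ := by
          refine ih.trans (le_trans ?_ hd)
          calc (1 / 2 : ℝ) ^ k * dist y y' ≤ 1 * dist y y' := by
                gcongr
                exact pow_le_one₀ (by norm_num) (by norm_num)
            _ = dist y y' := one_mul _
        rw [Function.iterate_succ_apply', Function.iterate_succ_apply']
        calc dist (f (f^[k] y)) (f (f^[k] y')) ≤ 1 / 2 * dist (f^[k] y) (f^[k] y') :=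
              hfl _ (hitB _ hyB k) _ (hitB _ hyB' k) h1
          _ ≤ 1 / 2 * ((1 / 2) ^ k * dist y y') := by gcongr
          _ = (1 / 2) ^ (k + 1) * dist y y' := by rw [pow_succ]; ring
    set Q := q (ψ N) * q (ψ (N + 1)) with hQ
    have hQpos : 0 < Q := Nat.mul_pos (hq0 _) (hq0 _)
    have h1 : f^[Q] y = y := by
      have : Function.IsPeriodicPt f (q (ψ N)) y := hqz (ψ N)
      exact this.mul_const _
    have h2 : f^[Q] y' = y' := by
      have : Function.IsPeriodicPt f (q (ψ (N + 1))) y' := hqz (ψ (N + 1))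
      exact this.const_mul _
    have h3 := hcontr Q
    rw [h1, h2] at h3
    have h4 : (1 / 2 : ℝ) ^ Q ≤ 1 / 2 := by
      calc (1 / 2 : ℝ) ^ Q ≤ (1 / 2) ^ 1 := pow_le_pow_of_le_one (by norm_num) (by norm_num) hQpos
        _ = 1 / 2 := pow_one _
    have h5 : 0 < dist y y' := dist_pos.2 hne
    nlinarith
  refine (hPfin.image (Function.minimalPeriod f)).subset ?_
  rintro n ⟨hn, x, hxo, hx, hmin⟩
  refine ⟨x, ⟨n, hn, hx⟩, ?_⟩
  have hpx : Function.IsPeriodicPt f n x := hx
  have h1 := hpx.minimalPeriod_le hn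
  have h2 := hpx.minimalPeriod_pos hn
  rcases h1.eq_or_lt with h | h
  · exact h
  · exact absurd (Function.isPeriodicPt_minimalPeriod f x) (hmin _ h2 h)

end Q203.LF
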