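import Mathlib
import Pool.Agent.Q203.LF.Basic

open scoped NNReal Topology
open Filter Set Metric

namespace Q203.LF

universe u

variable {M : Type u} [MetricSpace M] {o : M}

/-- images of bounded sequences under a compact operator have Cauchy subsequences -/
lemma exists_cauchy_subseq (T : Free M o →L[ℂ] Free M o) (hT : IsCompactOperator T)
    (v : ℕ → Free M o) (C : ℝ) (hv : ∀ n, ‖v n‖ ≤ C) :
    ∃ ψ : ℕ → ℕ, StrictMono ψ ∧ CauchySeq (fun n => T (v (ψ n))) := by
  obtain ⟨K, hK, hKT⟩ := hT.image_closedBall_subset_compact (𝕜₁ := ℂ)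
    (f := (T : Free M o →ₗ[ℂ] Free M o)) C
  obtain ⟨a, _, ψ, hψ, hlim⟩ := hK.tendsto_subseq (x := fun n => T (v n))
    (fun n => hKT ⟨v n, by simpa using hv n, rfl⟩)
  exact ⟨ψ, hψ, hlim.cauchySeq⟩

/-- testing differences of molecules -/
lemma test2 (h : M → ℝ) (hL : ∀ x y, |h x - h y| ≤ dist x y) (c c' : ℝ) (x y x' y' : M) :
    |c * (h x - h y) - c' * (h x' - h y')| ≤
      ‖(c : ℂ) • (delta M o x - delta M o y) - (c' : ℂ) • (delta M o x' - delta M o y')‖ := by
  have h1 := test_le ((c : ℂ) • (delta M o x - delta M o y) -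
    (c' : ℂ) • (delta M o x' - delta M o y')) h hL
  refine le_trans (le_of_eq ?_) h1
  simp only [map_sub, map_smul, incl_delta, sub_apply, smul_apply, ev_apply, mkReal_val,
    smul_eq_mul]
  rw [← Real.norm_eq_abs, ← Complex.norm_real]
  congr 1
  push_cast
  ring

lemma map_dist_le (T : Free M o →L[ℂ] Free M o) (f : M → M)
    (hf : ∀ x, T (delta M o x) = delta M o (f x)) (x y : M) :
    dist (f x) (f y) ≤ ‖T‖ * dist x y := by
  rw [← dist_delta (o := o) (f x), ← hf, ← hf, ← map_sub, ← dist_delta (o := o) x]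
  exact T.le_opNorm _

lemma map_base (T : Free M o →L[ℂ] Free M o) (f : M → M)
    (hf : ∀ x, T (delta M o x) = delta M o (f x)) : f o = o := by
  have h := hf o
  rw [delta_base, map_zero] at h
  have h2 := norm_delta (M := M) (o := o) (f o)
  rw [← h, norm_zero] at h2
  exact dist_eq_zero.1 h2.symm

/-- radial flatness -/
lemma radial (T : Free M o →L[ℂ] Free M o) (hT : IsCompactOperator T) (f : M → M)
    (hf : ∀ x, T (delta M o x) = delta M o (f x)) (ε : ℝ) (hε : 0 < ε) :
    ∃ R : ℝ, ∀ x, R ≤ dist x o → dist (f x) o ≤ ε * dist x o := by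
  have hfo := map_base T f hf
  by_contra hcon
  push Not at hcon
  choose x hx1 hx2 using fun n : ℕ => hcon ((n : ℝ) + 1)
  have hpos : ∀ n, 0 < dist (x n) o := fun n => lt_of_lt_of_le (by positivity) (hx1 n)
  let c : ℕ → ℝ := fun n => (dist (x n) o)⁻¹
  have hc : ∀ n, 0 < c n := fun n => inv_pos.2 (hpos n)
  let v : ℕ → Free M o := fun n => (c n : ℂ) • (delta M o (x n) - delta M o o)
  have hv : ∀ n, ‖v n‖ ≤ 1 := by
    intro n
    rw [norm_smul, dist_delta, Complex.norm_real, Real.norm_of_nonneg (hc n).le]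
    exact (inv_mul_cancel₀ (hpos n).ne').le
  have hTv : ∀ n, T (v n) = (c n : ℂ) • (delta M o (f (x n)) - delta M o o) := by
    intro n
    simp only [v, map_smul, map_sub, hf, hfo]
  obtain ⟨ψ, hψ, hC⟩ := exists_cauchy_subseq T hT v 1 hv
  obtain ⟨N, hN⟩ := Metric.cauchySeq_iff.1 hC (ε / 2) (by positivity)
  set y := f (x (ψ N)) with hy
  obtain ⟨m, hm⟩ := exists_nat_gt (max (N : ℝ) (dist y o * (2 / ε)))
  have hmN : N ≤ m := by
    have := (le_max_left (N : ℝ) _).trans hm.le
    exact_mod_cast this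
  have hcm : c (ψ m) * dist y o < ε / 2 := by
    have h1 : (m : ℝ) ≤ dist (x (ψ m)) o := by
      have h2 : (m : ℝ) ≤ (ψ m : ℝ) := by exact_mod_cast hψ.id_le m
      linarith [hx1 (ψ m)]
    have h3 : dist y o * (2 / ε) < dist (x (ψ m)) o :=
      lt_of_lt_of_le ((le_max_right _ _).trans_lt hm) h1
    have h4 : dist y o < ε / 2 * dist (x (ψ m)) o := by
      have := mul_lt_mul_of_pos_left h3 (show 0 < ε / 2 by positivity)
      calc dist y o = ε / 2 * (dist y o * (2 / ε)) := by field_simp
        _ < _ := this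
    calc c (ψ m) * dist y o < c (ψ m) * (ε / 2 * dist (x (ψ m)) o) :=
          mul_lt_mul_of_pos_left h4 (hc _)
      _ = ε / 2 * (c (ψ m) * dist (x (ψ m)) o) := by ring
      _ = ε / 2 := by rw [inv_mul_cancel₀ (hpos (ψ m)).ne', mul_one]
  have hd := hN N le_rfl m hmN
  rw [dist_eq_norm, hTv, hTv] at hd
  have ht := test2 (o := o) (fun z => min (dist z o) (dist y o)) (fun a b => by
    have h1 := abs_dist_sub_le a b o
    rw [abs_le] at h1 ⊢
    constructor
    · rcases le_total (dist a o) (dist y o) with h | h <;>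
      rcases le_total (dist b o) (dist y o) with h' | h' <;> simp only [min_eq_left h, min_eq_right h, min_eq_left h', min_eq_right h'] <;> linarith [dist_nonneg (x := a) (y := b)]
    · rcases le_total (dist a o) (dist y o) with h | h <;>
      rcases le_total (dist b o) (dist y o) with h' | h' <;> simp only [min_eq_left h, min_eq_right h, min_eq_left h', min_eq_right h'] <;> linarith [dist_nonneg (x := a) (y := b)])
    (c (ψ N)) (c (ψ m)) y o (f (x (ψ m))) o
  have ht' := ht.trans_lt hd
  simp only [min_self, dist_self, sub_zero] at ht'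
  rw [min_eq_left (dist_nonneg), sub_zero] at ht'
  have h5 : ε < c (ψ N) * dist y o := by
    have := hx2 (ψ N)
    calc ε = c (ψ N) * (ε * dist (x (ψ N)) o) := by
          simp only [c]; field_simp [(hpos (ψ N)).ne']
      _ < c (ψ N) * dist y o := mul_lt_mul_of_pos_left this (hc _)
  have h6 : c (ψ m) * (min (dist (f (x (ψ m))) o) (dist y o) - 0) ≤ c (ψ m) * dist y o := by
    rw [sub_zero]
    exact mul_le_mul_of_nonneg_left (min_le_right _ _) (hc _).le
  rw [sub_zero] at h6
  have h7 := (abs_lt.1 ht').2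
  linarith

lemma clamp_lip (a r s t : ℝ) :
    |(t - max (a - r) (min t (a + r))) - (s - max (a - r) (min s (a + r)))| ≤ |t - s| := by
  rw [abs_le]
  constructor <;>
  rcases le_total t (a + r) with h1 | h1 <;> rcases le_total s (a + r) with h2 | h2 <;>
  simp only [min_eq_left h1, min_eq_right h1, min_eq_left h2, min_eq_right h2] <;>
  grind

/-- local flatness on bounded sets -/
lemma local_flat [CompleteSpace M] (T : Free M o →L[ℂ] Free M o) (hT : IsCompactOperator T)
    (f : M → M) (hf : ∀ x, T (delta M o x) = delta M o (f x)) (R ε : ℝ) (hε : 0 < ε) :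
    ∃ r > 0, ∀ x y, dist x o ≤ R → dist y o ≤ R → dist x y ≤ r →
      dist (f x) (f y) ≤ ε * dist x y := by
  by_contra hcon
  push Not at hcon
  choose x x' hx hx' hxx hlt using fun n : ℕ => hcon (1 / ((n : ℝ) + 1)) (by positivity)
  have hpos : ∀ n, 0 < dist (x n) (x' n) := by
    intro n
    rcases (dist_nonneg (x := x n) (y := x' n)).eq_or_lt with h | h
    · have h0 := dist_eq_zero.1 h.symm
      have := hlt n
      rw [h0] at this
      simp at this
    · exact h
  let c : ℕ → ℝ := fun n => (dist (x n) (x' n))⁻¹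
  have hc : ∀ n, 0 < c n := fun n => inv_pos.2 (hpos n)
  -- first subsequence
  obtain ⟨ψ₁, hψ₁, hC₁⟩ := exists_cauchy_subseq T hT (fun n => delta M o (x n)) R
    (fun n => by rw [norm_delta]; exact hx n)
  have hC₁' : CauchySeq (fun n => f (x (ψ₁ n))) := by
    rw [Metric.cauchySeq_iff] at hC₁ ⊢
    intro e he
    obtain ⟨N, hN⟩ := hC₁ e he
    refine ⟨N, fun m hm n hn => ?_⟩
    have := hN m hm n hn
    rwa [dist_eq_norm, hf, hf, dist_delta] at this
  obtain ⟨p, hp⟩ := cauchySeq_tendsto_of_complete hC₁'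
  -- second subsequence
  let v : ℕ → Free M o := fun n =>
    (c (ψ₁ n) : ℂ) • (delta M o (x (ψ₁ n)) - delta M o (x' (ψ₁ n)))
  have hv : ∀ n, ‖v n‖ ≤ 1 := by
    intro n
    rw [norm_smul, dist_delta, Complex.norm_real, Real.norm_of_nonneg (hc _).le]
    exact (inv_mul_cancel₀ (hpos _).ne').le
  have hTv : ∀ n, T (v n) =
      (c (ψ₁ n) : ℂ) • (delta M o (f (x (ψ₁ n))) - delta M o (f (x' (ψ₁ n)))) := by
    intro n
    simp only [v, map_smul, map_sub, hf]
  obtain ⟨ψ₂, hψ₂, hC₂⟩ := exists_cauchy_subseq T hT v 1 hv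
  set ψ : ℕ → ℕ := fun n => ψ₁ (ψ₂ n) with hψ
  have hψm : StrictMono ψ := hψ₁.comp hψ₂
  have hy : Tendsto (fun n => f (x (ψ n))) atTop (𝓝 p) := hp.comp hψ₂.tendsto_atTop
  have hd0 : Tendsto (fun n => dist (x (ψ n)) (x' (ψ n))) atTop (𝓝 0) := by
    have h1 : Tendsto (fun n => dist (x n) (x' n)) atTop (𝓝 0) :=
      squeeze_zero (fun n => dist_nonneg) hxx tendsto_one_div_add_atTop_nhds_zero_nat
    exact h1.comp hψm.tendsto_atTop
  have hz : Tendsto (fun n => f (x' (ψ n))) atTop (𝓝 p) := by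
    rw [tendsto_iff_dist_tendsto_zero] at hy ⊢
    have h1 : Tendsto (fun n => ‖T‖ * dist (x (ψ n)) (x' (ψ n)) + dist (f (x (ψ n))) p) atTop
        (𝓝 (‖T‖ * 0 + 0)) := (hd0.const_mul _).add hy
    rw [mul_zero, add_zero] at h1
    refine squeeze_zero (fun n => dist_nonneg) (fun n => ?_) h1
    calc dist (f (x' (ψ n))) p ≤ dist (f (x' (ψ n))) (f (x (ψ n))) + dist (f (x (ψ n))) p :=
          dist_triangle _ _ _
      _ ≤ _ := by
          gcongr
          rw [dist_comm]
          exact map_dist_le T f hf _ _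
  obtain ⟨N, hN⟩ := Metric.cauchySeq_iff.1 hC₂ (ε / 2) (by positivity)
  set y := f (x (ψ N)) with hyd
  set z := f (x' (ψ N)) with hzd
  set C := c (ψ N) with hCd
  have hCpos : 0 < C := hc _
  set r := ε / (8 * C) with hr
  have hrpos : 0 < r := by positivity
  obtain ⟨m, hmN, hm1, hm2⟩ : ∃ m, N ≤ m ∧ dist (f (x (ψ m))) p < r ∧ dist (f (x' (ψ m))) p < r := by
    have h1 := (eventually_ge_atTop N).and
      ((Metric.tendsto_nhds.1 hy r hrpos).and (Metric.tendsto_nhds.1 hz r hrpos))
    obtain ⟨m, hm⟩ := h1.exists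
    exact ⟨m, hm.1, hm.2.1, hm.2.2⟩
  have hd := hN N le_rfl m hmN
  rw [dist_eq_norm, hTv, hTv] at hd
  set a := dist p y with ha
  have ht := test2 (o := o) (fun w => dist w y - max (a - r) (min (dist w y) (a + r)))
    (fun w w' => (clamp_lip a r _ _).trans (abs_dist_sub_le w w' y))
    C (c (ψ m)) z y (f (x' (ψ m))) (f (x (ψ m)))
  have hnear : ∀ w, dist w p < r → dist w y - max (a - r) (min (dist w y) (a + r)) = 0 := by
    intro w hw
    have h1 : |dist w y - a| ≤ r := (abs_dist_sub_le w p y).trans hw.le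
    rw [abs_le] at h1
    rw [min_eq_left (by linarith), max_eq_right (by linarith), sub_self]
  have ht' : |C * ((dist z y - max (a - r) (min (dist z y) (a + r))) -
      (dist y y - max (a - r) (min (dist y y) (a + r))))| < ε / 2 := by
    have h1 : ‖(C : ℂ) • (delta M o z - delta M o y) -
        (c (ψ m) : ℂ) • (delta M o (f (x' (ψ m))) - delta M o (f (x (ψ m))))‖ < ε / 2 := by
      have h2 : (C : ℂ) • (delta M o z - delta M o y) -
        (c (ψ m) : ℂ) • (delta M o (f (x' (ψ m))) - delta M o (f (x (ψ m)))) =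
        -((C : ℂ) • (delta M o y - delta M o z) -
        (c (ψ m) : ℂ) • (delta M o (f (x (ψ m))) - delta M o (f (x' (ψ m))))) := by
        simp only [smul_sub]; abel
      rw [h2, norm_neg]
      exact hd
    have h3 := ht.trans_lt h1
    simp only [hnear _ hm1, hnear _ hm2, sub_self, mul_zero, sub_zero] at h3
    simpa using h3
  have hzy : 2 * r < dist z y → C * (dist z y - 2 * r) ≤ C * ((dist z y - max (a - r) (min (dist z y) (a + r))) -
      (dist y y - max (a - r) (min (dist y y) (a + r)))) := by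
    intro _
    apply mul_le_mul_of_nonneg_left _ hCpos.le
    rw [dist_self]
    have e1 : max (a - r) (min (dist z y) (a + r)) ≤ a + r :=
      max_le (by linarith) (min_le_right _ _)
    have e2 : a - r ≤ max (a - r) (min 0 (a + r)) := le_max_left _ _
    linarith
  have h5 : ε < C * dist z y := by
    have := hlt (ψ N)
    rw [dist_comm z y]
    calc ε = C * (ε * dist (x (ψ N)) (x' (ψ N))) := by
          simp only [hCd, c]; field_simp [(hpos (ψ N)).ne']
      _ < C * dist y z := mul_lt_mul_of_pos_left this hCpos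
  have h6 : C * (2 * r) = ε / 4 := by
    rw [hr]; field_simp; ring
  have h7 : 2 * r < dist z y := by
    by_contra hle
    push Not at hle
    have := mul_le_mul_of_nonneg_left hle hCpos.le
    linarith
  have h8 := hzy h7
  have h9 := (abs_lt.1 ht').2
  nlinarith

/-- the image of a bounded set is relatively compact -/
lemma image_subseq [CompleteSpace M] (T : Free M o →L[ℂ] Free M o) (hT : IsCompactOperator T)
    (f : M → M) (hf : ∀ x, T (delta M o x) = delta M o (f x)) (R : ℝ) (x : ℕ → M)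
    (hx : ∀ n, dist (x n) o ≤ R) :
    ∃ ψ : ℕ → ℕ, StrictMono ψ ∧ CauchySeq (fun n => f (x (ψ n))) := by
  obtain ⟨ψ₁, hψ₁, hC₁⟩ := exists_cauchy_subseq T hT (fun n => delta M o (x n)) R
    (fun n => by rw [norm_delta]; exact hx n)
  refine ⟨ψ₁, hψ₁, ?_⟩
  rw [Metric.cauchySeq_iff] at hC₁ ⊢
  intro e he
  obtain ⟨N, hN⟩ := hC₁ e he
  refine ⟨N, fun m hm n hn => ?_⟩
  have := hN m hm n hn
  rwa [dist_eq_norm, hf, hf, dist_delta] at this

end Q203.LF
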