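import Mathlib

open scoped NNReal Topology
open Filter Set Metric

namespace Q203.LF

/-- The adjoint of a bounded operator on the dual space. -/
noncomputable def adj {E : Type*} [NormedAddCommGroup E] [NormedSpace ℂ E] (T : E →L[ℂ] E) :
    (E →L[ℂ] ℂ) →L[ℂ] (E →L[ℂ] ℂ) :=
  (ContinuousLinearMap.compL ℂ E E ℂ).flip T

lemma adj_apply {E : Type*} [NormedAddCommGroup E] [NormedSpace ℂ E] (T : E →L[ℂ] E)
    (φ : E →L[ℂ] ℂ) (x : E) : adj T φ x = φ (T x) := rfl

/-- Schauder's theorem: the adjoint of a compact operator is compact. -/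
theorem schauder {E : Type*} [NormedAddCommGroup E] [NormedSpace ℂ E] (T : E →L[ℂ] E)
    (hT : IsCompactOperator T) : IsCompactOperator (adj T) := by
  refine (isCompactOperator_iff_isCompact_closure_image_closedBall (𝕜₁ := ℂ)
    (adj T : (E →L[ℂ] ℂ) →ₗ[ℂ] (E →L[ℂ] ℂ)) (r := 1) one_pos).2 ?_
  refine TotallyBounded.isCompact_of_isClosed ?_ isClosed_closure
  apply TotallyBounded.closure
  rw [Metric.totallyBounded_iff]
  intro ε hε
  -- a finite net of the image of the unit ball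
  obtain ⟨K, hK, hKT⟩ := hT.image_closedBall_subset_compact (𝕜₁ := ℂ) (f := (T : E →ₗ[ℂ] E)) 1
  have hTB : TotallyBounded K := hK.totallyBounded
  obtain ⟨N, hNfin, hN⟩ := (Metric.totallyBounded_iff.1 hTB) (ε / 8) (by positivity)
  have : Fintype N := hNfin.fintype
  -- evaluation at the net
  let ev : (E →L[ℂ] ℂ) → (N → ℂ) := fun φ i => φ i
  have hbd : Bornology.IsBounded (ev '' closedBall 0 1) := by
    rw [Metric.isBounded_iff_subset_closedBall 0]
    obtain ⟨R, hR⟩ : ∃ R : ℝ, ∀ i : N, ‖(i : E)‖ ≤ R := by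
      obtain ⟨R, hR⟩ := (hNfin.isBounded).exists_norm_le
      exact ⟨R, fun i => hR i i.2⟩
    refine ⟨max R 0, ?_⟩
    rintro _ ⟨φ, hφ, rfl⟩
    rw [mem_closedBall, dist_zero_right] at hφ ⊢
    rw [pi_norm_le_iff_of_nonneg (le_max_right _ _)]
    intro i
    calc ‖φ i‖ ≤ ‖φ‖ * ‖(i : E)‖ := φ.le_opNorm _
      _ ≤ 1 * ‖(i : E)‖ := by gcongr
      _ ≤ max R 0 := by rw [one_mul]; exact (hR i).trans (le_max_left _ _)
  have htb : TotallyBounded (ev '' closedBall 0 1) :=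
    hbd.isCompact_closure.totallyBounded.subset subset_closure
  obtain ⟨t, htsub, htfin, ht⟩ := (Metric.finite_approx_of_totallyBounded htb) (ε / 8) (by positivity)
  -- choose preimages
  have htsub' : ∀ c ∈ t, ∃ φ : E →L[ℂ] ℂ, φ ∈ closedBall (0 : E →L[ℂ] ℂ) 1 ∧ ev φ = c :=
    fun c hc => by obtain ⟨φ, h1, h2⟩ := htsub hc; exact ⟨φ, h1, h2⟩
  choose! ψ hψ1 hψ2 using htsub'
  refine ⟨(fun c => adj T (ψ c)) '' t, htfin.image _, ?_⟩
  rintro _ ⟨φ, hφ, rfl⟩
  obtain ⟨c, hc, hφc⟩ : ∃ c ∈ t, ev φ ∈ ball c (ε / 8) := by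
    simpa using ht (mem_image_of_mem ev hφ)
  simp only [mem_iUnion, mem_image, exists_prop]
  refine ⟨_, ⟨c, hc, rfl⟩, ?_⟩
  rw [mem_ball, dist_eq_norm]
  have hψc := hψ1 c hc
  rw [mem_closedBall, dist_zero_right] at hφ hψc
  have key : ∀ x : E, ‖x‖ ≤ 1 → ‖(φ - ψ c) (T x)‖ ≤ ε / 2 := by
    intro x hx
    have hxK : T x ∈ K := hKT ⟨x, by simpa using hx, rfl⟩
    obtain ⟨i, hi, hxi⟩ : ∃ i ∈ N, T x ∈ ball i (ε / 8) := by simpa using hN hxK
    have h1 : ‖(φ - ψ c) i‖ ≤ ε / 8 := by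
      have := (dist_le_pi_dist (ev φ) c ⟨i, hi⟩).trans (mem_ball.1 hφc).le
      rw [← hψ2 c hc] at this
      simpa [ev, dist_eq_norm] using this
    have h2 : ‖(φ - ψ c) (T x - i)‖ ≤ 2 * (ε / 8) := by
      calc ‖(φ - ψ c) (T x - i)‖ ≤ ‖φ - ψ c‖ * ‖T x - i‖ := (φ - ψ c).le_opNorm _
        _ ≤ 2 * (ε / 8) := by
            gcongr
            · calc ‖φ - ψ c‖ ≤ ‖φ‖ + ‖ψ c‖ := norm_sub_le _ _
                _ ≤ 2 := by linarith
            · rw [mem_ball, dist_eq_norm] at hxi; exact hxi.le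
    calc ‖(φ - ψ c) (T x)‖ = ‖(φ - ψ c) i + (φ - ψ c) (T x - i)‖ := by
          rw [← map_add]; congr 2; abel
      _ ≤ ‖(φ - ψ c) i‖ + ‖(φ - ψ c) (T x - i)‖ := norm_add_le _ _
      _ ≤ ε / 2 := by linarith
  have : ‖adj T φ - adj T (ψ c)‖ ≤ ε / 2 := by
    refine ContinuousLinearMap.opNorm_le_of_unit_norm (by positivity) ?_
    intro x hx
    have := key x hx.le
    simpa [adj_apply] using this
  exact lt_of_le_of_lt this (by linarith)

/-- a nonzero point of the spectrum of a compact operator is an eigenvalue of the adjoint. -/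
theorem exists_adj_eigen {E : Type*} [NormedAddCommGroup E] [NormedSpace ℂ E] [CompleteSpace E]
    (T : E →L[ℂ] E) (hT : IsCompactOperator T) (μ : ℂ) (hμ : μ ≠ 0)
    (h : ¬ Function.Bijective (fun v => T v - μ • v)) :
    ∃ φ : E →L[ℂ] ℂ, φ ≠ 0 ∧ ∀ v, φ (T v) = μ * φ v := by
  by_contra hcon
  push Not at hcon
  have hne : ¬ Module.End.HasEigenvalue (adj T : Module.End ℂ (E →L[ℂ] ℂ)) μ := by
    intro hev
    obtain ⟨φ, hφ⟩ := hev.exists_hasEigenvector
    obtain ⟨v, hv⟩ := hcon φ hφ.2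
    apply hv
    have := hφ.apply_eq_smul
    have h2 := congrArg (fun ψ : E →L[ℂ] ℂ => ψ v) this
    simpa [adj_apply] using h2
  have hres : μ ∈ resolventSet ℂ (adj T) :=
    ((schauder T hT).hasEigenvalue_or_mem_resolventSet hμ).resolve_left hne
  -- so `μ` is not an eigenvalue of `T`
  have hnT : ¬ Module.End.HasEigenvalue (T : Module.End ℂ E) μ := by
    intro hev
    obtain ⟨v, hv⟩ := hev.exists_hasEigenvector
    have hTv : T v = μ • v := hv.apply_eq_smul
    -- surjectivity of adj T - μ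
    rw [spectrum.mem_resolventSet_iff] at hres
    rw [ContinuousLinearMap.isUnit_iff_bijective] at hres
    obtain ⟨ψ, hψ⟩ := SeparatingDual.exists_ne_zero (R := ℂ) hv.2
    obtain ⟨χ, hχ⟩ := hres.2 ψ
    apply hψ
    rw [← hχ]
    simp [adj_apply, hTv, Algebra.algebraMap_eq_smul_one]
  have hresT : μ ∈ resolventSet ℂ T := (hT.hasEigenvalue_or_mem_resolventSet hμ).resolve_left hnT
  rw [spectrum.mem_resolventSet_iff, ← IsUnit.neg_iff,
      ContinuousLinearMap.isUnit_iff_bijective] at hresT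
  apply h
  convert hresT using 1
  ext v
  simp [Algebra.algebraMap_eq_smul_one]

end Q203.LF
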